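import Pool.Agent.H27.ZF.TA

/-!
Board zf (MP_52e316_nt), row MID (second copy): the middle primes of one block.
-/

set_option autoImplicit false

namespace Pool.Agent.H20.ZF

open Pool.Agent.H27.ZF

theorem esym_sub {R : Type} [CommSemiring R] (U : Finset ℕ) (f : ℕ → R) (l : ℕ) :
    ∑ S ∈ Finset.powersetCard l (Finset.univ : Finset {p // p ∈ U}), ∏ i ∈ S, f i.1 =
      ∑ S ∈ Finset.powersetCard l U, ∏ p ∈ S, f p := by
  classical
  have h : U = (Finset.univ : Finset {p // p ∈ U}).map (Function.Embedding.subtype _) := by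
    rw [Finset.univ_eq_attach, Finset.attach_map_val]
  conv_rhs => rw [h, Finset.powersetCard_map, Finset.sum_map]
  refine Finset.sum_congr rfl fun S _ => ?_
  simp

theorem fact_le_pow (l : ℕ) : (Nat.factorial l : ℝ) ≤ (l : ℝ) ^ l := by
  exact_mod_cast Nat.factorial_le_pow l

theorem lin_le_pow (b : ℝ) (l : ℕ) (hb : 1 ≤ b) (hl : 1 ≤ l) : b * l ≤ (2 * b) ^ l := by
  have h1 : (l : ℝ) ≤ 2 ^ l := by
    have := (Nat.lt_two_pow_self (n := l)).le
    exact_mod_cast this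
  have h2 : b ≤ b ^ l := le_self_pow₀ hb (by omega)
  rw [mul_pow, mul_comm]
  exact mul_le_mul h1 h2 (by linarith) (by positivity)

theorem sq_bound (m k l : ℕ) (d Y Qd V0 E : ℝ) (hm : 1 ≤ m) (hk : k ≤ m) (hl : 1 ≤ l)
    (hY : 1 ≤ Y) (hd : 0 < d) (hQ0 : 0 ≤ Qd)
    (hQ : Qd ≤ ((2 : ℝ) ^ m * Y ^ (d / 4)) ^ l)
    (hE : E ≤ k * l * (4 * Qd * (Y ^ (-(2 * d))) ^ l))
    (hV : 2 * l * Y ^ (-d) ≤ V0 → (V0 / 2) ^ l / (Nat.factorial l : ℝ) ≤ E) :
    V0 ≤ 16 * m * 2 ^ m * l * Y ^ (-d) := by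
  have hY0 : 0 < Y := by linarith
  have hm1 : (1 : ℝ) ≤ m := by exact_mod_cast hm
  have hl1 : (1 : ℝ) ≤ l := by exact_mod_cast hl
  have h2m : (1 : ℝ) ≤ 2 ^ m := one_le_pow₀ (by norm_num)
  have hW : 0 < Y ^ (-d) := Real.rpow_pos_of_pos hY0 _
  by_cases h1 : 2 * l * Y ^ (-d) ≤ V0
  · have h2 := hV h1
    have hV0 : 0 ≤ V0 := le_trans (by positivity) h1
    have hf : (0 : ℝ) < Nat.factorial l := by exact_mod_cast Nat.factorial_pos l
    rw [div_le_iff₀ hf] at h2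
    have hk1 : (k : ℝ) ≤ m := by exact_mod_cast hk
    have h3 : (k : ℝ) * l * 4 ≤ (8 * m) ^ l := by
      have h4 := lin_le_pow (4 * m) l (by linarith) hl
      have h5 : (2 * (4 * (m : ℝ))) ^ l = (8 * m) ^ l := by ring_nf
      rw [h5] at h4
      calc (k : ℝ) * l * 4 ≤ m * l * 4 := by gcongr
        _ = 4 * m * l := by ring
        _ ≤ _ := h4
    have h6 : (V0 / 2) ^ l ≤ (8 * m * 2 ^ m * l * Y ^ (-d)) ^ l := by
      have hY2 : Y ^ (d / 4) * Y ^ (-(2 * d)) ≤ Y ^ (-d) := by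
        rw [← Real.rpow_add hY0]
        exact Real.rpow_le_rpow_of_exponent_le hY (by linarith)
      calc (V0 / 2) ^ l ≤ E * (Nat.factorial l : ℝ) := h2
        _ ≤ (k * l * (4 * Qd * (Y ^ (-(2 * d))) ^ l)) * (Nat.factorial l : ℝ) := by gcongr
        _ = ((k : ℝ) * l * 4) * Qd * (Y ^ (-(2 * d))) ^ l * (Nat.factorial l : ℝ) := by ring
        _ ≤ (8 * m) ^ l * ((2 : ℝ) ^ m * Y ^ (d / 4)) ^ l * (Y ^ (-(2 * d))) ^ l *
            (l : ℝ) ^ l := by
            have := fact_le_pow l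
            gcongr
        _ = (8 * m * 2 ^ m * l * (Y ^ (d / 4) * Y ^ (-(2 * d)))) ^ l := by
            simp only [mul_pow]
            ring
        _ ≤ _ := by gcongr
    have h7 := (pow_le_pow_iff_left₀ (by positivity) (by positivity) (by omega)).mp h6
    linarith
  · push Not at h1
    refine h1.le.trans ?_
    have h8 : (2 : ℝ) ≤ 16 * m * 2 ^ m := by nlinarith
    gcongr

theorem lin_bound (m k l : ℕ) (d Y Qd T E C : ℝ) (hm : 1 ≤ m) (hk : k ≤ m) (hl : 1 ≤ l)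
    (hY : 1 ≤ Y) (hd : 0 < d) (hQ0 : 0 ≤ Qd) (hC : 16 * m * 2 ^ m ≤ C)
    (hQ : Qd ≤ ((2 : ℝ) ^ m * Y ^ (d / 8)) ^ l)
    (hE : E ≤ k * l * (Qd * (Y ^ (-d)) ^ l))
    (hT0 : 0 ≤ T)
    (hT : 4 * l * Y ^ (-(d / 2)) ≤ T → 8 * (C * l * Y ^ (-d)) * l ≤ T ^ 2 →
      (T / 2) ^ l / (Nat.factorial l : ℝ) ≤ E) :
    T ≤ 8 * C * l * Y ^ (-(d / 2)) := by
  have hY0 : 0 < Y := by linarith
  have hm1 : (1 : ℝ) ≤ m := by exact_mod_cast hm
  have hl1 : (1 : ℝ) ≤ l := by exact_mod_cast hl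
  have h2m : (1 : ℝ) ≤ 2 ^ m := one_le_pow₀ (by norm_num)
  have hW : 0 < Y ^ (-(d / 2)) := Real.rpow_pos_of_pos hY0 _
  have hC16 : 16 ≤ C := by nlinarith
  by_contra hcon
  push Not at hcon
  have h1 : 4 * l * Y ^ (-(d / 2)) ≤ T := by
    refine le_trans ?_ hcon.le
    have : (4 : ℝ) ≤ 8 * C := by linarith
    gcongr
  have hWW : Y ^ (-d) = Y ^ (-(d / 2)) * Y ^ (-(d / 2)) := by
    rw [← Real.rpow_add hY0]
    congr 1
    ring
  have h2 : 8 * (C * l * Y ^ (-d)) * l ≤ T ^ 2 := by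
    have h3 : (8 * C * l * Y ^ (-(d / 2))) ^ 2 ≤ T ^ 2 :=
      pow_le_pow_left₀ (by positivity) hcon.le 2
    refine le_trans ?_ h3
    rw [hWW]
    have h4 : 8 * (C * l * (Y ^ (-(d / 2)) * Y ^ (-(d / 2)))) * l =
        8 * C * (l * Y ^ (-(d / 2))) ^ 2 := by ring
    have h5 : (8 * C * l * Y ^ (-(d / 2))) ^ 2 = (8 * C) ^ 2 * (l * Y ^ (-(d / 2))) ^ 2 := by ring
    rw [h4, h5]
    have h6 : 8 * C ≤ (8 * C) ^ 2 := by nlinarith
    gcongr
  have h3 := hT h1 h2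
  have hf : (0 : ℝ) < Nat.factorial l := by exact_mod_cast Nat.factorial_pos l
  rw [div_le_iff₀ hf] at h3
  have hk1 : (k : ℝ) ≤ m := by exact_mod_cast hk
  have h4 : (k : ℝ) * l ≤ (2 * m) ^ l := by
    calc (k : ℝ) * l ≤ m * l := by gcongr
      _ ≤ _ := lin_le_pow m l hm1 hl
  have h6 : (T / 2) ^ l ≤ (2 * m * 2 ^ m * l * Y ^ (-(d / 2))) ^ l := by
    have hY2 : Y ^ (d / 8) * Y ^ (-d) ≤ Y ^ (-(d / 2)) := by
      rw [← Real.rpow_add hY0]
      exact Real.rpow_le_rpow_of_exponent_le hY (by linarith)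
    calc (T / 2) ^ l ≤ E * (Nat.factorial l : ℝ) := h3
      _ ≤ (k * l * (Qd * (Y ^ (-d)) ^ l)) * (Nat.factorial l : ℝ) := by gcongr
      _ = ((k : ℝ) * l) * Qd * (Y ^ (-d)) ^ l * (Nat.factorial l : ℝ) := by ring
      _ ≤ (2 * m) ^ l * ((2 : ℝ) ^ m * Y ^ (d / 8)) ^ l * (Y ^ (-d)) ^ l * (l : ℝ) ^ l := by
          have := fact_le_pow l
          gcongr
      _ = (2 * m * 2 ^ m * l * (Y ^ (d / 8) * Y ^ (-d))) ^ l := by
          simp only [mul_pow]
          ring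
      _ ≤ _ := by gcongr
  have h7 := (pow_le_pow_iff_left₀ (by positivity) (by positivity) (by omega)).mp h6
  have h8 : 4 * m * 2 ^ m * l * Y ^ (-(d / 2)) ≤ 8 * C * l * Y ^ (-(d / 2)) := by
    have : 4 * (m : ℝ) * 2 ^ m ≤ 8 * C := by nlinarith
    gcongr
  linarith

theorem pf_MID (hNEW : T_NEW) (hESL : T_ESL) (hESD : T_ESD) (hESQ : T_ESQ) (hLBD : T_LBD) :
    T_MID := by
  intro m d hm hd hd2
  obtain ⟨C1, hC1, hL⟩ := hLBD m hm
  obtain ⟨C2, hC2⟩ : ∃ C2 : ℝ, C2 = 16 * m * 2 ^ m := ⟨_, rfl⟩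
  have hm1 : (1 : ℝ) ≤ m := by exact_mod_cast hm
  have h2m : (1 : ℝ) ≤ 2 ^ m := one_le_pow₀ (by norm_num)
  have hC2' : 16 ≤ C2 := by rw [hC2]; nlinarith
  refine ⟨d / 16, 36 * C2, max 1 (C1 ^ (4 / d)), by positivity, by linarith, le_max_left _ _, ?_⟩
  intro lam q Q z0 z hE hQ1 hz1 hzQ hSq s hs hDp j k hj hk hkm
  have hz10 : C1 ^ (4 / d) ≤ z0 := (le_max_right _ _).trans hz1
  have hlogQ : 0 ≤ Real.log Q := Real.log_nonneg hQ1
  have hQ0 : 0 < Q := by linarith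
  have hRHS : 0 ≤ 36 * C2 * Real.log Q * (2 : ℝ) ^ (-((j : ℝ) * (d / 16))) := by
    have : (0 : ℝ) < (2 : ℝ) ^ (-((j : ℝ) * (d / 16))) := Real.rpow_pos_of_pos (by norm_num) _
    positivity
  rcases (UP z0 z j).eq_empty_or_nonempty with hU | ⟨p0, hp0⟩
  · rw [hU]
    refine ⟨fun p hp => absurd hp (Finset.notMem_empty p), ?_⟩
    simp only [Finset.sum_empty, norm_zero, add_zero]
    exact hRHS
  -- the primes of the block
  have hUp : ∀ p ∈ UP z0 z j, 2 ^ (j - 1) < p ∧ p ≤ 2 ^ j ∧ p.Prime ∧ z0 < (p : ℝ) ∧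
      (p : ℝ) ≤ z := by
    intro p hp
    unfold UP at hp
    rw [Finset.mem_filter, Finset.mem_Ioc] at hp
    exact ⟨hp.1.1, hp.1.2, hp.2.1, hp.2.2.1, hp.2.2.2⟩
  obtain ⟨hp1, hp2, hpp, hpz0, hpz⟩ := hUp p0 hp0
  have hz2 : 2 ≤ z := by
    have : (2 : ℝ) ≤ p0 := by exact_mod_cast hpp.two_le
    linarith
  have hpQ : ∀ p ∈ UP z0 z j, (p : ℝ) ^ (4 * m) ≤ Q := by
    intro p hp
    obtain ⟨-, -, -, -, h5⟩ := hUp p hp
    exact (pow_le_pow_left₀ (Nat.cast_nonneg p) h5 _).trans hzQ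
  obtain ⟨Y, hY⟩ : ∃ Y : ℝ, Y = (2 : ℝ) ^ ((j - 1) * k) := ⟨_, rfl⟩
  have hY1 : 1 ≤ Y := by rw [hY]; exact one_le_pow₀ (by norm_num)
  have hY0 : 0 < Y := by linarith
  -- sizes
  have hY0Q : (2 : ℝ) ^ (j * k) ≤ Q := by
    have h1 : (2 : ℝ) ^ j ≤ p0 ^ 2 := by
      have h2 : 2 ^ j = 2 * 2 ^ (j - 1) := by
        rw [← pow_succ']
        congr 1
        omega
      have h3 : 2 ^ j ≤ p0 ^ 2 := by
        rw [h2, pow_two]
        exact Nat.mul_le_mul hpp.two_le hp1.le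
      exact_mod_cast h3
    calc (2 : ℝ) ^ (j * k) = ((2 : ℝ) ^ j) ^ k := pow_mul _ _ _
      _ ≤ ((p0 : ℝ) ^ 2) ^ k := pow_le_pow_left₀ (by positivity) h1 _
      _ = (p0 : ℝ) ^ (2 * k) := by rw [← pow_mul]
      _ ≤ (p0 : ℝ) ^ (4 * m) := pow_le_pow_right₀ (by exact_mod_cast hpp.one_le) (by omega)
      _ ≤ Q := hpQ p0 hp0
  have hjk : 0 < (j : ℝ) * k := by
    have : 0 < j * k := Nat.mul_pos (by omega) (by omega)
    exact_mod_cast this
  have hlog2 : 0 < Real.log 2 := Real.log_pos (by norm_num)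
  have hden : 0 < (j : ℝ) * k * Real.log 2 := by positivity
  obtain ⟨l, hl⟩ : ∃ l : ℕ, l = lf Q j k := ⟨_, rfl⟩
  have hl' : l = ⌊Real.log Q / (j * k * Real.log 2)⌋₊ := hl
  have hl1 : 1 ≤ l := by
    rw [hl']
    refine Nat.le_floor ?_
    rw [Nat.cast_one, le_div_iff₀ hden, one_mul]
    have := Real.log_le_log (by positivity) hY0Q
    rw [Real.log_pow] at this
    push_cast at this
    exact this
  have hlup : (l : ℝ) * (j * k * Real.log 2) ≤ Real.log Q := by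
    have h1 : (l : ℝ) ≤ Real.log Q / (j * k * Real.log 2) := by
      rw [hl']
      exact Nat.floor_le (by positivity)
    rwa [le_div_iff₀ hden] at h1
  have hllo : Real.log Q < ((l : ℝ) + 1) * (j * k * Real.log 2) := by
    have h1 : Real.log Q / (j * k * Real.log 2) < (l : ℝ) + 1 := by
      rw [hl']
      exact Nat.lt_floor_add_one _
    rwa [div_lt_iff₀ hden] at h1
  have h2Q : ∀ r : ℕ, r ≤ j * k * l → (2 : ℝ) ^ r ≤ Q := by
    intro r hr
    rw [← Real.log_le_log_iff (by positivity) hQ0, Real.log_pow]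
    have h1 : (r : ℝ) ≤ j * k * l := by exact_mod_cast hr
    calc (r : ℝ) * Real.log 2 ≤ (j * k * l) * Real.log 2 := by gcongr
      _ = l * (j * k * Real.log 2) := by ring
      _ ≤ _ := hlup
  have hQpow : Q ≤ ((2 : ℝ) ^ (j * k)) ^ (2 * l) := by
    rw [← Real.log_le_log_iff hQ0 (by positivity), Real.log_pow, Real.log_pow]
    push_cast
    have hl1' : (1 : ℝ) ≤ l := by exact_mod_cast hl1
    calc Real.log Q ≤ ((l : ℝ) + 1) * (j * k * Real.log 2) := hllo.le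
      _ ≤ (2 * l) * (j * k * Real.log 2) := by
          refine mul_le_mul_of_nonneg_right ?_ hden.le
          linarith
  have hY0Y : (2 : ℝ) ^ (j * k) ≤ 2 ^ m * Y := by
    rw [hY, ← pow_add]
    refine pow_le_pow_right₀ (by norm_num) ?_
    have h1 : j * k = k + (j - 1) * k := by
      obtain ⟨i, rfl⟩ : ∃ i, j = i + 1 := ⟨j - 1, by omega⟩
      rw [Nat.add_sub_cancel]
      ring
    omega
  have hQe : ∀ e : ℝ, 0 ≤ e → 2 * e ≤ 1 → Q ^ e ≤ ((2 : ℝ) ^ m * Y ^ (2 * e)) ^ l := by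
    intro e he he1
    calc Q ^ e ≤ (((2 : ℝ) ^ (j * k)) ^ (2 * l)) ^ e := Real.rpow_le_rpow hQ0.le hQpow he
      _ = (((2 : ℝ) ^ (j * k)) ^ (2 * e)) ^ l := by
          rw [← Real.rpow_natCast ((2 : ℝ) ^ (j * k)) (2 * l), ← Real.rpow_mul (by positivity),
            ← Real.rpow_natCast (((2 : ℝ) ^ (j * k)) ^ (2 * e)) l, ← Real.rpow_mul (by positivity)]
          congr 1
          push_cast
          ring
      _ ≤ (((2 : ℝ) ^ m * Y) ^ (2 * e)) ^ l := by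
          refine pow_le_pow_left₀ (by positivity) ?_ _
          exact Real.rpow_le_rpow (by positivity) hY0Y (by linarith)
      _ = (((2 : ℝ) ^ m) ^ (2 * e) * Y ^ (2 * e)) ^ l := by
          rw [Real.mul_rpow (by positivity) hY0.le]
      _ ≤ _ := by
          refine pow_le_pow_left₀ (by positivity) ?_ _
          refine mul_le_mul_of_nonneg_right ?_ (by positivity)
          calc ((2 : ℝ) ^ m) ^ (2 * e) ≤ ((2 : ℝ) ^ m) ^ (1 : ℝ) :=
                Real.rpow_le_rpow_of_exponent_le h2m he1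
            _ = _ := Real.rpow_one _
  -- the terms
  obtain ⟨P, hP⟩ : ∃ P : ℕ → ℝ, P = fun p : ℕ => (p : ℝ) ^ k := ⟨_, rfl⟩
  have hPY : ∀ p ∈ UP z0 z j, Y ≤ P p := by
    intro p hp
    obtain ⟨h1, -, -, -, -⟩ := hUp p hp
    rw [hY, hP, pow_mul]
    refine pow_le_pow_left₀ (by positivity) ?_ _
    exact_mod_cast h1.le
  have hPC : ∀ p ∈ UP z0 z j, C1 ≤ P p ^ (d / 4) := by
    intro p hp
    obtain ⟨-, -, h3, h4, -⟩ := hUp p hp
    have h5 : C1 ^ (4 / d) ≤ P p := by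
      refine hz10.trans (h4.le.trans ?_)
      rw [hP]
      exact le_self_pow₀ (by exact_mod_cast h3.one_le) (by omega)
    calc C1 = (C1 ^ (4 / d)) ^ (d / 4) := by
          rw [← Real.rpow_mul (by linarith)]
          rw [show 4 / d * (d / 4) = 1 by field_simp, Real.rpow_one]
      _ ≤ _ := Real.rpow_le_rpow (by positivity) h5 (by positivity)
  have hlamP : ∀ p ∈ UP z0 z j, ∀ σ : ℝ, 1 / 2 + d ≤ σ →
      ‖lam (p ^ k)‖ * P p ^ (-σ) ≤ Y ^ (-(d / 2)) := by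
    intro p hp σ hσ
    obtain ⟨-, -, h3, -, -⟩ := hUp p hp
    have h1 : 1 ≤ P p := hY1.trans (hPY p hp)
    have h2 : 0 < P p := by linarith
    have h4 := hL lam q Q (d / 16) hE hQ1 (by positivity) (by linarith)
      hSq p h3 (hpQ p hp) k hkm
    rw [Real.rpow_natCast_mul (Nat.cast_nonneg p)] at h4
    have h4' : ‖lam (p ^ k)‖ ≤ C1 * P p ^ (1 / 2 + 4 * (d / 16)) := by
      rw [hP]
      exact h4
    calc ‖lam (p ^ k)‖ * P p ^ (-σ) ≤ (C1 * P p ^ (1 / 2 + 4 * (d / 16))) * P p ^ (-σ) := by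
          gcongr
      _ ≤ (P p ^ (d / 4) * P p ^ (1 / 2 + 4 * (d / 16))) * P p ^ (-σ) := by
          have := hPC p hp
          gcongr
      _ = P p ^ (d / 4 + (1 / 2 + 4 * (d / 16)) + -σ) := by
          rw [← Real.rpow_add h2, ← Real.rpow_add h2]
      _ ≤ P p ^ (-(d / 2)) := Real.rpow_le_rpow_of_exponent_le h1 (by linarith)
      _ ≤ Y ^ (-(d / 2)) := Real.rpow_le_rpow_of_nonpos hY0 (hPY p hp) (by linarith)
  have hnorm : ∀ p ∈ UP z0 z j, ‖lam (p ^ k) * (p : ℂ) ^ (-((k : ℂ) * s))‖ =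
      ‖lam (p ^ k)‖ * P p ^ (-s.re) := by
    intro p hp
    obtain ⟨-, -, h3, -, -⟩ := hUp p hp
    rw [norm_mul, Complex.norm_natCast_cpow_of_pos h3.pos]
    congr 1
    rw [hP]
    show (p : ℝ) ^ (-((k : ℂ) * s)).re = ((p : ℝ) ^ k) ^ (-s.re)
    rw [← Real.rpow_natCast_mul (Nat.cast_nonneg p)]
    congr 1
    simp
  have hx : ∀ p ∈ UP z0 z j, ‖lam (p ^ k) * (p : ℂ) ^ (-((k : ℂ) * s))‖ ≤ Y ^ (-(d / 2)) := by
    intro p hp
    rw [hnorm p hp]
    exact hlamP p hp s.re hs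
  have hYle1 : Y ^ (-(d / 2)) ≤ 1 := Real.rpow_le_one_of_one_le_of_nonpos hY1 (by linarith)
  refine ⟨fun p hp => (hx p hp).trans hYle1, ?_⟩
  -- powers of `Y`
  have hYl : ∀ e : ℝ, (Y ^ e) ^ l = (2 : ℝ) ^ (e * (((j - 1) * k * l : ℕ) : ℝ)) := by
    intro e
    rw [hY, ← Real.rpow_natCast_mul (by norm_num), ← Real.rpow_mul_natCast (by norm_num)]
    congr 1
    push_cast
    ring
  have hcard : ((Finset.Icc ((j - 1) * k * l + 1) (j * k * l)).card : ℝ) = k * l := by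
    rw [Nat.card_Icc]
    have h1 : j * k * l + 1 - ((j - 1) * k * l + 1) = k * l := by
      obtain ⟨i, rfl⟩ : ∃ i, j = i + 1 := ⟨j - 1, by omega⟩
      rw [Nat.add_sub_cancel]
      have : (i + 1) * k * l = i * k * l + k * l := by ring
      omega
    rw [h1]
    push_cast
    ring
  -- squares
  obtain ⟨v, hv⟩ : ∃ v : ℕ → ℝ,
    v = fun p => ‖lam (p ^ k)‖ ^ 2 * (p : ℝ) ^ (-(2 * k * (1 / 2 + d))) := ⟨_, rfl⟩
  have hvP : ∀ p ∈ UP z0 z j, v p = (‖lam (p ^ k)‖ * P p ^ (-(1 / 2 + d))) ^ 2 := by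
    intro p hp
    have h1 : 0 < P p := by linarith [hPY p hp]
    have e1 : v p = ‖lam (p ^ k)‖ ^ 2 * (p : ℝ) ^ (-(2 * k * (1 / 2 + d))) := by rw [hv]
    rw [e1, mul_pow]
    congr 1
    rw [← Real.rpow_natCast (P p ^ (-(1 / 2 + d))) 2, ← Real.rpow_mul h1.le, hP]
    show _ = ((p : ℝ) ^ k) ^ _
    rw [← Real.rpow_natCast_mul (Nat.cast_nonneg p)]
    congr 1
    push_cast
    ring
  have hWW : Y ^ (-d) = (Y ^ (-(d / 2))) ^ 2 := by
    rw [← Real.rpow_natCast (Y ^ (-(d / 2))) 2, ← Real.rpow_mul hY0.le]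
    congr 1
    push_cast
    ring
  have hvb : ∀ p ∈ UP z0 z j, 0 ≤ v p ∧ v p ≤ Y ^ (-d) := by
    intro p hp
    have h1 : 0 < P p := by linarith [hPY p hp]
    rw [hvP p hp]
    refine ⟨by positivity, ?_⟩
    rw [hWW]
    exact pow_le_pow_left₀ (by positivity) (hlamP p hp _ le_rfl) 2
  have hV0 : ∑ p ∈ UP z0 z j, v p ≤ C2 * l * Y ^ (-d) := by
    rw [hC2]
    refine sq_bound m k l d Y (Q ^ (d / 8)) _
      (∑ S ∈ Finset.powersetCard l (UP z0 z j), ∏ p ∈ S, v p) hm hkm hl1 hY1 hd (by positivity)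
      ?_ ?_ ?_
    · have h1 := hQe (d / 8) (by positivity) (by linarith)
      rwa [show 2 * (d / 8) = d / 4 by ring] at h1
    · have h1 := hESQ m lam q hE z0 z j k l hj hk hl1 (1 / 2 + d) (by linarith)
      rw [← hl] at *
      have h2 : ∑ S ∈ Finset.powersetCard l (UP z0 z j), ∏ p ∈ S, v p ≤
          ∑ r ∈ Finset.Icc ((j - 1) * k * l + 1) (j * k * l),
            (2 : ℝ) ^ (-(2 * (1 / 2 + d) * ((r : ℝ) - 1))) * ∑ n ∈ Bk r, ‖lam n‖ ^ 2 := by
        rw [hv]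
        exact h1
      refine h2.trans ?_
      have h3 : ∀ r ∈ Finset.Icc ((j - 1) * k * l + 1) (j * k * l),
          (2 : ℝ) ^ (-(2 * (1 / 2 + d) * ((r : ℝ) - 1))) * ∑ n ∈ Bk r, ‖lam n‖ ^ 2 ≤
            4 * Q ^ (d / 8) * (Y ^ (-(2 * d))) ^ l := by
        intro r hr
        obtain ⟨hr1, hr2⟩ := Finset.mem_Icc.mp hr
        have h4 := hSq r (h2Q r hr2)
        rw [show 2 * (d / 16) = d / 8 by ring] at h4
        calc (2 : ℝ) ^ (-(2 * (1 / 2 + d) * ((r : ℝ) - 1))) * ∑ n ∈ Bk r, ‖lam n‖ ^ 2 ≤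
              (2 : ℝ) ^ (-(2 * (1 / 2 + d) * ((r : ℝ) - 1))) * (Q ^ (d / 8) * 2 ^ r) := by
              gcongr
          _ = Q ^ (d / 8) * ((2 : ℝ) ^ (-(2 * (1 / 2 + d) * ((r : ℝ) - 1)) + (r : ℝ))) := by
              rw [Real.rpow_add (by norm_num), Real.rpow_natCast]
              ring
          _ ≤ Q ^ (d / 8) * ((2 : ℝ) ^ (2 + -(2 * d) * (((j - 1) * k * l : ℕ) : ℝ))) := by
              refine mul_le_mul_of_nonneg_left ?_ (by positivity)
              refine Real.rpow_le_rpow_of_exponent_le (by norm_num) ?_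
              have h5 : (((j - 1) * k * l : ℕ) : ℝ) + 1 ≤ r := by exact_mod_cast hr1
              nlinarith
          _ = 4 * Q ^ (d / 8) * (Y ^ (-(2 * d))) ^ l := by
              rw [hYl, Real.rpow_add (by norm_num)]
              norm_num
              ring
      calc _ ≤ ∑ r ∈ Finset.Icc ((j - 1) * k * l + 1) (j * k * l),
            4 * Q ^ (d / 8) * (Y ^ (-(2 * d))) ^ l := Finset.sum_le_sum h3
        _ = _ := by
            rw [Finset.sum_const, nsmul_eq_mul, hcard]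
    · intro h1
      have h2 := hESL {p // p ∈ UP z0 z j} (fun p => v p.1) (Y ^ (-d)) l
        (fun p => hvb p.1 p.2) (by
          rw [Finset.sum_coe_sort (UP z0 z j) v]
          exact h1)
      rw [Finset.sum_coe_sort (UP z0 z j) v, esym_sub] at h2
      exact h2
  have hsq : ∑ p ∈ UP z0 z j, ‖lam (p ^ k) * (p : ℂ) ^ (-((k : ℂ) * s))‖ ^ 2 ≤
      C2 * l * Y ^ (-d) := by
    refine (Finset.sum_le_sum fun p hp => ?_).trans hV0
    have h1 : 1 ≤ P p := hY1.trans (hPY p hp)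
    rw [hnorm p hp, hvP p hp]
    refine pow_le_pow_left₀ (by positivity) ?_ 2
    refine mul_le_mul_of_nonneg_left ?_ (norm_nonneg _)
    exact Real.rpow_le_rpow_of_exponent_le h1 (by linarith)
  -- first powers
  have hlin : ‖∑ p ∈ UP z0 z j, lam (p ^ k) * (p : ℂ) ^ (-((k : ℂ) * s))‖ ≤
      8 * C2 * l * Y ^ (-(d / 2)) := by
    refine lin_bound m k l d Y (Q ^ (d / 16)) _ ‖ES lam (UP z0 z j) k l s‖ C2 hm hkm hl1 hY1 hd
      (by positivity) (le_of_eq hC2.symm) ?_ ?_ (norm_nonneg _) ?_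
    · have h1 := hQe (d / 16) (by positivity) (by linarith)
      rwa [show 2 * (d / 16) = d / 8 by ring] at h1
    · rw [hESD m lam q hE z0 z j k l hj hk hl1 s]
      refine (norm_sum_le _ _).trans ?_
      have h3 : ∀ r ∈ Finset.Icc ((j - 1) * k * l + 1) (j * k * l),
          ‖DB lam (bb (UP z0 z j) k l) r s‖ ≤ Q ^ (d / 16) * (Y ^ (-d)) ^ l := by
        intro r hr
        obtain ⟨hr1, hr2⟩ := Finset.mem_Icc.mp hr
        have h4 := hDp j k r hj hk hkm (h2Q j (by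
          calc j = j * 1 * 1 := by ring
            _ ≤ j * k * l := by gcongr)) (h2Q r hr2)
        rw [← hl] at h4
        refine h4.trans ?_
        refine mul_le_mul_of_nonneg_left ?_ (by positivity)
        rw [hYl]
        refine Real.rpow_le_rpow_of_exponent_le (by norm_num) ?_
        have h5 : (((j - 1) * k * l : ℕ) : ℝ) + 1 ≤ r := by exact_mod_cast hr1
        have h6 : (0 : ℝ) ≤ (((j - 1) * k * l : ℕ) : ℝ) := Nat.cast_nonneg _
        have h7 : d ≤ s.re - 1 / 2 := by linarith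
        nlinarith
      calc _ ≤ ∑ r ∈ Finset.Icc ((j - 1) * k * l + 1) (j * k * l),
            Q ^ (d / 16) * (Y ^ (-d)) ^ l := Finset.sum_le_sum h3
        _ = _ := by
            rw [Finset.sum_const, nsmul_eq_mul, hcard]
    · intro h1 h2
      have h3 := hNEW {p // p ∈ UP z0 z j}
        (fun p => lam (p.1 ^ k) * ((p.1 : ℕ) : ℂ) ^ (-((k : ℂ) * s))) (Y ^ (-(d / 2)))
        (C2 * l * Y ^ (-d)) l hl1 (fun p => hx p.1 p.2) (by
          rw [Finset.sum_coe_sort (UP z0 z j)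
            (fun p => ‖lam (p ^ k) * (p : ℂ) ^ (-((k : ℂ) * s))‖ ^ 2)]
          exact hsq) (by
          rw [Finset.sum_coe_sort (UP z0 z j)
            (fun p => lam (p ^ k) * (p : ℂ) ^ (-((k : ℂ) * s)))]
          exact h1) (by
          rw [Finset.sum_coe_sort (UP z0 z j)
            (fun p => lam (p ^ k) * (p : ℂ) ^ (-((k : ℂ) * s)))]
          exact h2)
      rw [Finset.sum_coe_sort (UP z0 z j)
            (fun p => lam (p ^ k) * (p : ℂ) ^ (-((k : ℂ) * s))),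
        esym_sub (UP z0 z j) (fun p => lam (p ^ k) * (p : ℂ) ^ (-((k : ℂ) * s)))] at h3
      exact h3
  -- the end
  have hl2 : (l : ℝ) ≤ 2 * Real.log Q := by
    have h1 : (1 : ℝ) / 2 ≤ Real.log 2 := by
      have := Real.log_two_gt_d9
      linarith
    have hj1 : (1 : ℝ) ≤ j * k := by
      have : 1 ≤ j * k := Nat.mul_pos (by omega) (by omega)
      exact_mod_cast this
    have h2 : (l : ℝ) * (1 / 2) ≤ l * (j * k * Real.log 2) := by
      refine mul_le_mul_of_nonneg_left ?_ (Nat.cast_nonneg _)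
      nlinarith
    linarith
  have hYj : Y ^ (-(d / 2)) ≤ 2 * (2 : ℝ) ^ (-((j : ℝ) * (d / 16))) := by
    have h1 : (2 : ℝ) ^ (j - 1) ≤ Y := by
      rw [hY]
      exact pow_le_pow_right₀ (by norm_num) (Nat.le_mul_of_pos_right _ (by omega))
    calc Y ^ (-(d / 2)) ≤ ((2 : ℝ) ^ (j - 1)) ^ (-(d / 2)) :=
          Real.rpow_le_rpow_of_nonpos (by positivity) h1 (by linarith)
      _ = (2 : ℝ) ^ (((j - 1 : ℕ) : ℝ) * (-(d / 2))) := by
          rw [← Real.rpow_natCast_mul (by norm_num)]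
      _ ≤ (2 : ℝ) ^ (1 + -((j : ℝ) * (d / 16))) := by
          refine Real.rpow_le_rpow_of_exponent_le (by norm_num) ?_
          have h2 : ((j - 1 : ℕ) : ℝ) = j - 1 := by
            rw [Nat.cast_sub hj, Nat.cast_one]
          rw [h2]
          have hj1 : (1 : ℝ) ≤ j := by exact_mod_cast hj
          nlinarith
      _ = _ := by rw [Real.rpow_add (by norm_num), Real.rpow_one]
  have hYd : Y ^ (-d) ≤ Y ^ (-(d / 2)) := Real.rpow_le_rpow_of_exponent_le hY1 (by linarith)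
  calc _ ≤ 8 * C2 * l * Y ^ (-(d / 2)) + C2 * l * Y ^ (-d) := add_le_add hlin hsq
    _ ≤ 8 * C2 * l * Y ^ (-(d / 2)) + C2 * l * Y ^ (-(d / 2)) := by gcongr
    _ = 9 * C2 * l * Y ^ (-(d / 2)) := by ring
    _ ≤ 9 * C2 * (2 * Real.log Q) * (2 * (2 : ℝ) ^ (-((j : ℝ) * (d / 16)))) := by gcongr
    _ = _ := by ring

end Pool.Agent.H20.ZF
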